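import Pool.Agent.Mg.F75f14d.Gaf3b00

namespace Pool.Agent.Results.MP_75f14d_lc.RT22Conservative

open Pool.Agent.MP75f14d

/-- RCA0 + BSigma02 + RT22 is Pi11-conservative over RCA0 + BSigma02. -/
theorem result : Pi11Conservative (RCA0 ∪ BSigma02 ∪ {RT22}) (RCA0 ∪ BSigma02) :=
  fun f hf h => conservative f hf
    (h.mono (Set.union_subset_union_right _ (by simp)))

end Pool.Agent.Results.MP_75f14d_lc.RT22Conservative
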